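import Mathlib
import Pool.Agent.H744R2.HochDefs
import Pool.Agent.H744R2.HochFinal

set_option autoImplicit false

/-!
# Symmetric modules with very large cohomology in all degrees at least three at once

There is a compact Hausdorff space `Ω` with the following property.  Let `A` be any unital normed
algebra of which `C(Ω)` is a retract (there are continuous homomorphisms `C(Ω) → A → C(Ω)` with
composition the identity), for example `A = C(Ω')` for any compact space `Ω'` of which `Ω` is a
retract (such as `Ω × K`), or `A = B ⊕ C(Ω)` for any `B`.  Then for every set `κ` there is ONE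
symmetric unital Banach `A`-bimodule `X` such that for ALL `n ≥ 3` the space `Hⁿ(A, X)` contains a
family of classes indexed by `κ` which is linearly independent.
-/

namespace Pool.Agent.Results.MP_92c8f1_an.AllDegreesAtOnce

open Pool.Agent.H744R2 Pool.Agent.H744R2.Hoch

/-- `H^(m+1)(A, X)` contains a linearly independent family indexed by `κ`: there are bounded
`(m+1)`-cocycles `f s`, `s ∈ κ`, no nontrivial finite linear combination of which is the coboundary
of a bounded `m`-linear map. -/
def HasIndependentClasses {A : Type} [NormedRing A] [NormedAlgebra ℂ A] {X : Type}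
    [NormedAddCommGroup X] [NormedSpace ℂ X] (M : BanachBimodule A X) (κ : Type) (m : ℕ) : Prop :=
  ∃ f : κ → ContinuousMultilinearMap ℂ (fun _ : Fin (m + 1) => A) X,
    (∀ s, M.coboundary (fun a => f s a) = 0) ∧
    ∀ (S : Finset κ) (c : κ → ℂ), (∃ s ∈ S, c s ≠ 0) →
      ¬ ∃ g : ContinuousMultilinearMap ℂ (fun _ : Fin m => A) X,
        M.coboundary (fun a => g a) = fun a => ∑ s ∈ S, c s • f s a

/-- a nontrivial cocycle of the starting example -/
theorem exists_cocycle (k : ℕ) :
    ∃ f : ContinuousMultilinearMap ℂ (fun _ : Fin (k + 3) => C(Om, ℂ)) (Xsub (k + 1)),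
      cob chiC (fun a => f a) = 0 ∧
      ∀ g : ContinuousMultilinearMap ℂ (fun _ : Fin (k + 2) => C(Om, ℂ)) (Xsub (k + 1)),
        cob chiC (fun a => g a) ≠ fun a => f a := by
  by_contra hcon
  push Not at hcon
  apply not_vanishes k
  intro f hf
  obtain ⟨g, hg⟩ := hcon f hf
  exact ⟨g, hg⟩

theorem chiC_one : chiC 1 = 1 := by
  change chi (gB 1) = 1
  rw [gB_one, chi_one]

section

variable {A : Type} [NormedRing A] [NormedAlgebra ℂ A]
variable (i : C(Om, ℂ) →L[ℂ] A) (π : A →L[ℂ] C(Om, ℂ))

theorem comp_mul (hπ : ∀ a b, π (a * b) = π a * π b) (a b : A) :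
    (chiC.comp π) (a * b) = (chiC.comp π) a * (chiC.comp π) b := by
  change chiC (π (a * b)) = chiC (π a) * chiC (π b)
  rw [hπ, chiC_mul]

theorem classes (hi : ∀ a b, i (a * b) = i a * i b) (hπ : ∀ a b, π (a * b) = π a * π b)
    (hip : ∀ a, π (i a) = a) (κ : Type) (k : ℕ) :
    HasIndependentClasses (trivB (chiC.comp π) (comp_mul π hπ)
      (lp (fun x : ℕ × κ => Xsub (x.1 + 1)) 2)) κ (k + 2) := by
  classical
  haveI : Fact ((1 : ENNReal) ≤ 2) := ⟨by norm_num⟩
  obtain ⟨f, hf, hfg⟩ := exists_cocycle k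
  let J : κ → (Xsub (k + 1) →L[ℂ] lp (fun x : ℕ × κ => Xsub (x.1 + 1)) 2) := fun s =>
    lp.singleContinuousLinearMap ℂ (fun x : ℕ × κ => Xsub (x.1 + 1)) 2 (k, s)
  let Q : κ → (lp (fun x : ℕ × κ => Xsub (x.1 + 1)) 2 →L[ℂ] Xsub (k + 1)) := fun s =>
    LinearMap.mkContinuous
      { toFun := fun y => y (k, s)
        map_add' := fun y z => rfl
        map_smul' := fun c y => rfl } 1 (fun y => by
          rw [one_mul]
          exact lp.norm_apply_le_norm (by norm_num) y (k, s))
  have hQJ : ∀ s x, Q s (J s x) = x := fun s x =>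
    lp.single_apply_self (E := fun x : ℕ × κ => Xsub (x.1 + 1)) 2 (k, s) x
  have hQJ' : ∀ s t x, t ≠ s → Q s (J t x) = 0 := fun s t x hts =>
    lp.single_apply_ne (E := fun x : ℕ × κ => Xsub (x.1 + 1)) 2 (k, t) x
      (fun h => hts (congrArg Prod.snd h).symm)
  refine ⟨fun s => (J s).compContinuousMultilinearMap (f.compContinuousLinearMap (fun _ => π)), ?_, ?_⟩
  · intro s
    rw [trivB_coboundary]
    funext a
    have h1 := cob_map (fun x => chiC (π x)) (J s) (fun b : Fin (k + 3) → A => f (fun j => π (b j))) a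
    have h2 := cob_comp (X := Xsub (k + 1)) (fun x => π x) hπ chiC (fun b => f b) a
    rw [h2, hf] at h1
    change cob (fun x => chiC (π x)) (fun b => J s (f (fun j => π (b j)))) a = 0
    rw [h1]
    exact map_zero (J s)
  · rintro S c ⟨s, hs, hcs⟩ ⟨g, hg⟩
    apply hfg (((c s)⁻¹ • Q s).compContinuousMultilinearMap (g.compContinuousLinearMap (fun _ => i)))
    funext a
    have h0 := congrFun hg (fun j => i (a j))
    rw [trivB_coboundary] at h0
    have h1 := cob_map chiC ((c s)⁻¹ • Q s) (fun b : Fin (k + 2) → C(Om, ℂ) => g (fun j => i (b j))) a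
    have h2 := cob_comp (X := lp (fun x : ℕ × κ => Xsub (x.1 + 1)) 2) (fun x => i x) hi
      (fun x => chiC (π x)) (fun b => g b) a
    have h3 : (fun x => chiC (π (i x))) = chiC := by
      funext x
      rw [hip]
    rw [h3] at h2
    rw [h2] at h1
    change cob chiC (fun b => ((c s)⁻¹ • Q s) (g (fun j => i (b j)))) a = f a
    rw [h1]
    have h4 : cob (fun x => chiC (π x)) (fun b => g b) (fun j => i (a j)) =
        ∑ t ∈ S, c t • J t (f a) := by
      refine Eq.trans h0 (Finset.sum_congr rfl fun t _ => ?_)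
      change c t • J t (f (fun j => π (i (a j)))) = _
      simp only [hip]
    rw [h4, map_sum, Finset.sum_eq_single s]
    · rw [map_smul]
      change c s • ((c s)⁻¹ • Q s (J s (f a))) = f a
      rw [hQJ, smul_smul, mul_inv_cancel₀ hcs, one_smul]
    · intro t _ hts
      rw [map_smul]
      change c t • ((c s)⁻¹ • Q s (J t (f a))) = 0
      rw [hQJ' s t _ hts, smul_zero, smul_zero]
    · intro h
      exact absurd hs h

end

/-- There is a compact Hausdorff space `Ω` such that:
(1) for every unital normed algebra `A` with continuous homomorphisms `i : C(Ω) → A`,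
`π : A → C(Ω)`, `π ∘ i = id`, and for every set `κ`, there is one symmetric unital Banach
`A`-bimodule `X` such that for all `n ≥ 3` the space `Hⁿ(A, X)` contains a linearly independent
family indexed by `κ`;
(2) in particular this is so for `A = C(Ω')`, for every compact Hausdorff space `Ω'` of which `Ω`
is a retract, for example for `Ω' = Ω × K` with any nonempty compact Hausdorff space `K`. -/
theorem result :
    ∃ (Ω : Type) (_ : TopologicalSpace Ω) (_ : CompactSpace Ω) (_ : T2Space Ω),
      (∀ (A : Type) (_ : NormedRing A) (_ : NormedAlgebra ℂ A)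
        (i : C(Ω, ℂ) →L[ℂ] A) (π : A →L[ℂ] C(Ω, ℂ)),
        (∀ a b, i (a * b) = i a * i b) → (∀ a b, π (a * b) = π a * π b) → (∀ a, π (i a) = a) →
        ∀ κ : Type,
          ∃ (X : Type) (_ : NormedAddCommGroup X) (_ : NormedSpace ℂ X) (_ : CompleteSpace X)
            (M : BanachBimodule A X), M.IsSymmetric ∧ M.IsUnital ∧
            (∀ m : ℕ, 2 ≤ m → HasIndependentClasses M κ m)) ∧
      (∀ (Ω' : Type) (_ : TopologicalSpace Ω') (_ : CompactSpace Ω') (_ : T2Space Ω')
        (s : C(Ω, Ω')) (r : C(Ω', Ω)), (∀ x, r (s x) = x) → ∀ κ : Type,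
          ∃ (X : Type) (_ : NormedAddCommGroup X) (_ : NormedSpace ℂ X) (_ : CompleteSpace X)
            (M : BanachBimodule C(Ω', ℂ) X), M.IsSymmetric ∧ M.IsUnital ∧
            (∀ m : ℕ, 2 ≤ m → HasIndependentClasses M κ m)) ∧
      (∀ (K : Type) (_ : TopologicalSpace K) (_ : CompactSpace K) (_ : T2Space K), Nonempty K →
        ∀ κ : Type,
          ∃ (X : Type) (_ : NormedAddCommGroup X) (_ : NormedSpace ℂ X) (_ : CompleteSpace X)
            (M : BanachBimodule C(Ω × K, ℂ) X), M.IsSymmetric ∧ M.IsUnital ∧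
            (∀ m : ℕ, 2 ≤ m → HasIndependentClasses M κ m)) := by
  refine ⟨Om, inferInstance, inferInstance, inferInstance, ?_⟩
  have main : ∀ (A : Type) (_ : NormedRing A) (_ : NormedAlgebra ℂ A)
      (i : C(Om, ℂ) →L[ℂ] A) (π : A →L[ℂ] C(Om, ℂ)),
      (∀ a b, i (a * b) = i a * i b) → (∀ a b, π (a * b) = π a * π b) → (∀ a, π (i a) = a) →
      ∀ κ : Type,
        ∃ (X : Type) (_ : NormedAddCommGroup X) (_ : NormedSpace ℂ X) (_ : CompleteSpace X)
          (M : BanachBimodule A X), M.IsSymmetric ∧ M.IsUnital ∧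
          (∀ m : ℕ, 2 ≤ m → HasIndependentClasses M κ m) := by
    intro A _ _ i π hi hπ hip κ
    haveI : Fact ((1 : ENNReal) ≤ 2) := ⟨by norm_num⟩
    refine ⟨lp (fun x : ℕ × κ => Xsub (x.1 + 1)) 2, inferInstance, inferInstance, inferInstance,
      trivB (chiC.comp π) (comp_mul π hπ) _, fun a x => rfl, fun x => ?_, ?_⟩
    · have hπ1 : π 1 = 1 := by
        have h1 := hπ 1 (i 1)
        rw [one_mul, hip, mul_one] at h1
        exact h1.symm
      have h : (trivB (chiC.comp π) (comp_mul π hπ)
          (lp (fun x : ℕ × κ => Xsub (x.1 + 1)) 2)).lact 1 x = x := by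
        change chiC (π 1) • x = x
        rw [hπ1, chiC_one, one_smul]
      exact ⟨h, h⟩
    · intro m hm
      obtain ⟨k, rfl⟩ := Nat.exists_eq_add_of_le hm
      rw [Nat.add_comm 2 k]
      exact classes i π hi hπ hip κ k
  have spaces : ∀ (Ω' : Type) (_ : TopologicalSpace Ω') (_ : CompactSpace Ω') (_ : T2Space Ω')
      (s : C(Om, Ω')) (r : C(Ω', Om)), (∀ x, r (s x) = x) → ∀ κ : Type,
        ∃ (X : Type) (_ : NormedAddCommGroup X) (_ : NormedSpace ℂ X) (_ : CompleteSpace X)
          (M : BanachBimodule C(Ω', ℂ) X), M.IsSymmetric ∧ M.IsUnital ∧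
          (∀ m : ℕ, 2 ≤ m → HasIndependentClasses M κ m) := by
    intro Ω' _ _ _ s r hsr κ
    let i : C(Om, ℂ) →L[ℂ] C(Ω', ℂ) :=
      ⟨(ContinuousMap.compRightAlgHom ℂ ℂ r).toLinearMap, ContinuousMap.continuous_precomp r⟩
    let π : C(Ω', ℂ) →L[ℂ] C(Om, ℂ) :=
      ⟨(ContinuousMap.compRightAlgHom ℂ ℂ s).toLinearMap, ContinuousMap.continuous_precomp s⟩
    refine main C(Ω', ℂ) inferInstance inferInstance i π (fun a b => rfl) (fun a b => rfl) ?_ κ
    intro a
    ext x
    change a (r (s x)) = a x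
    rw [hsr]
  refine ⟨main, spaces, ?_⟩
  rintro K _ _ _ ⟨y⟩ κ
  exact spaces (Om × K) inferInstance inferInstance inferInstance
    ⟨fun x => (x, y), by fun_prop⟩ ⟨Prod.fst, continuous_fst⟩ (fun x => rfl) κ

end Pool.Agent.Results.MP_92c8f1_an.AllDegreesAtOnce
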